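import Pool.Agent.Y136.WordAlg.Transfer

set_option autoImplicit false

namespace Pool.Agent.Results.MP_0946c8_al.AlgebraicFields

open Pool.Agent.H45R3.AC Pool.Agent.Y136.WordAlg

universe u

/-- The word problem has linear average-case time complexity, with respect to every finite family
`f` of elements (in particular every finite generating family), in
(1) every subgroup `G` of `GL_m(K)`, for every field `K` algebraic over `ℚ`, for instance the field
of all algebraic numbers;
(2) every subgroup `G` of `GL_m(K)`, for every field `K` algebraic over the field with `p` elements;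
(3) every subgroup `G` of the group of units of a finite-dimensional algebra `S` over `ℚ`. -/
theorem result :
    (∀ (K : Type u) [Field K] [Algebra ℚ K] [Algebra.IsAlgebraic ℚ K] (m : ℕ)
      (G : Subgroup (GL (Fin m) K)) (r : ℕ) (f : Fin r → G), LinearAverageWP f) ∧
    (∀ (p : ℕ) [Fact p.Prime] (K : Type u) [Field K] [Algebra (ZMod p) K]
      [Algebra.IsAlgebraic (ZMod p) K] (m : ℕ) (G : Subgroup (GL (Fin m) K)) (r : ℕ)
      (f : Fin r → G), LinearAverageWP f) ∧
    (∀ (S : Type u) [Ring S] [Algebra ℚ S] [Module.Finite ℚ S] (G : Subgroup Sˣ) (r : ℕ)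
      (f : Fin r → G), LinearAverageWP f) :=
  ⟨fun K _ _ _ _ G _ f => of_subgroup (fun _ g => algebraic_zero K g) G f,
    fun p _ K _ _ _ _ G _ f => of_subgroup (fun _ g => algebraic_p p K g) G f,
    fun S _ _ _ G _ f => of_subgroup (fun _ g => units_finite S g) G f⟩

end Pool.Agent.Results.MP_0946c8_al.AlgebraicFields
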